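import Pool.Agent.R602.AM.Final

/-!
# Dual Dedekind finiteness of the powers of the power set of an amorphous set

The models `ZermeloAtoms` of Zermelo set theory with atoms (in particular all models of ZF) are
defined in `Pool.Agent.Helper672.ZFA.Statement`, the sets of a model as types in
`Pool.Agent.Helper672.ZFA.Types` and `Pool.Agent.Helper672.ZFA.Power`, its natural numbers (`INat`) in
`Pool.Agent.Helper672.ZFA.Nat`, amorphous sets (`Amor`) in `Pool.Agent.R602.AM.Base` and `DDFin` in
`Pool.Agent.R602.AM.Stat`.

The proof is done inside an arbitrary, possibly nonstandard, model.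
-/

namespace Pool.Agent.Results.MP_92320c_lc.PowersOfPowerSets

open Pool.Agent.Helper672.ZFA Pool.Agent.R602.AM

universe u

/-- In every model of Zermelo set theory with atoms (hence in every model of ZF): if `A` is amorphous
and `P(A)^n` is dually Dedekind finite for one natural number `n ≠ 0`, then it is for all natural
numbers. So for every family of amorphous sets `A n`, `n` a natural number, there is `n` such that
`P(A n)^n` is dually Dedekind infinite or `P(A n)^(n + 1)` is dually Dedekind finite. -/
theorem result (M : Type u) [L.Structure M] [ZermeloAtoms M] :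
    (∀ A : M, Amor M (El A) → ∀ n m : INat M, n ≠ 0 →
      DDFin M (IFun M (El n.val) (IPow M (El A))) →
        DDFin M (IFun M (El m.val) (IPow M (El A)))) ∧
    ∀ A : INat M → M, (∀ n, Amor M (El (A n))) → ∃ n : INat M,
      ¬ DDFin M (IFun M (El n.val) (IPow M (El (A n)))) ∨
        DDFin M (IFun M (El n.succ.val) (IPow M (El (A n)))) := by
  have h : ∀ A : M, Amor M (El A) → ∀ n m : INat M, n ≠ 0 →
      DDFin M (IFun M (El n.val) (IPow M (El A))) →
        DDFin M (IFun M (El m.val) (IPow M (El A))) := by
    intro A hA n m hn h1
    by_contra h2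
    exact main2 pcs hA hn h2 h1
  refine ⟨h, fun A hA => ⟨INat.succ 0, ?_⟩⟩
  by_cases h1 : DDFin M (IFun M (El (INat.succ (0 : INat M)).val)
    (IPow M (El (A (INat.succ 0)))))
  · exact Or.inr (h _ (hA _) _ _ (INat.succ_ne_zero 0) h1)
  · exact Or.inl h1

end Pool.Agent.Results.MP_92320c_lc.PowersOfPowerSets
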